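import Mathlib
import Pool.Agent.H351R3.NotKan
import Pool.Agent.Q135.Ex.EFence

/-!
# Fibrancy of `Ex^n` of the nerve of a category is not invariant under passing to the opposite

For every `n ≥ 1` (the question is the case `n = 2`) there is a category `C`, in fact a finite
poset, such that `Ex^n N C` is a Kan complex and `Ex^n N (C^op)` is not. One takes for `C` the fence
(zigzag poset) with `2 ^ n + 1` elements whose end points are minimal.

The functor `SSet.ex` (the right adjoint of barycentric subdivision), the nerve and the predicate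
`SSet.KanComplex` are those of Mathlib.
-/

namespace Pool.Agent.Results.MP_bcd555_gt.FibrancyNotSelfDual

open CategoryTheory Pool.Agent.H351R3 Pool.Agent.Q135.Ex
open scoped SSet.modelCategoryQuillen

/-- Reversing the order of a fence with minimal end points. -/
def toFence (r : ℕ) (x : EFence r) : Fence r := ⟨x.val, x.nonneg, x.le_two_mul⟩

/-- The inverse of `toFence`. -/
def ofFence (r : ℕ) (x : Fence r) : EFence r := ⟨x.val, x.nonneg, x.le_two_mul⟩

lemma toFence_le {r : ℕ} {a b : EFence r} (h : a ≤ b) : toFence r b ≤ toFence r a := by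
  rw [EFence.le_iff] at h
  rw [Fence.le_iff]
  change b.val = a.val ∨ (b.val % 2 = 1 ∧ (a.val = b.val + 1 ∨ a.val = b.val - 1))
  omega

lemma ofFence_le {r : ℕ} {a b : Fence r} (h : a ≤ b) : ofFence r b ≤ ofFence r a := by
  rw [Fence.le_iff] at h
  rw [EFence.le_iff]
  change b.val = a.val ∨ (b.val % 2 = 0 ∧ (a.val = b.val + 1 ∨ a.val = b.val - 1))
  omega

/-- The opposite of the fence with minimal end points is the fence with maximal end points. -/
def opFunctor (r : ℕ) : (EFence r)ᵒᵖ ⥤ Fence r where
  obj x := toFence r x.unop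
  map f := homOfLE (toFence_le (leOfHom f.unop))

/-- The inverse functor. -/
def opFunctorInv (r : ℕ) : Fence r ⥤ (EFence r)ᵒᵖ where
  obj x := Opposite.op (ofFence r x)
  map f := (homOfLE (ofFence_le (leOfHom f))).op

/-- The isomorphism of categories. -/
def opIso (r : ℕ) : Cat.of (EFence r)ᵒᵖ ≅ Cat.of (Fence r) where
  hom := (opFunctor r).toCatHom
  inv := (opFunctorInv r).toCatHom
  hom_inv_id := by
    apply Cat.Hom.ext
    refine CategoryTheory.Functor.ext (fun X => rfl) ?_
    intro X Y f
    have h : Subsingleton (X ⟶ Y) := ⟨fun a b => Quiver.Hom.unop_inj (Subsingleton.elim _ _)⟩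
    exact h.elim _ _
  inv_hom_id := by
    apply Cat.Hom.ext
    refine CategoryTheory.Functor.ext (fun X => rfl) ?_
    intro X Y f
    have h : ∀ a b : Fence r, ∀ u v : a ⟶ b, u = v := fun a b u v => Subsingleton.elim u v
    exact h _ _ _ _

/-- A simplicial set isomorphic to a Kan complex is a Kan complex. -/
lemma kan_of_iso {X Y : SSet.{0}} (e : X ≅ Y) (h : SSet.KanComplex Y) : SSet.KanComplex X :=
  HomotopicalAlgebra.isFibrant_of_fibration e.hom

/-- Iterates of `Ex` preserve isomorphisms. -/
noncomputable def exIso (n : ℕ) {X Y : SSet.{0}} (e : X ≅ Y) :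
    (SSet.ex.{0}.obj)^[n] X ≅ (SSet.ex.{0}.obj)^[n] Y := by
  induction n with
  | zero => exact e
  | succ n ih =>
    rw [Function.iterate_succ_apply', Function.iterate_succ_apply']
    exact SSet.ex.{0}.mapIso ih

/-- **Answer to the question (case `n = 2`), and its analogue for all `n ≥ 1`.** There is a finite
poset `C`, viewed as a category, such that `Ex^n` of the nerve of `C` is a Kan complex and `Ex^n` of
the nerve of the opposite category is not. -/
theorem result : ∀ n : ℕ, 1 ≤ n → ∃ (C : Type) (_ : PartialOrder C) (_ : Finite C),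
    SSet.KanComplex ((SSet.ex.{0}.obj)^[n] (nerve C)) ∧
      ¬ SSet.KanComplex ((SSet.ex.{0}.obj)^[n] (nerve Cᵒᵖ)) := by
  intro n hn
  obtain ⟨k, rfl⟩ := Nat.exists_eq_add_of_le' hn
  refine ⟨EFence (2 ^ k), inferInstance, inferInstance, ?_, ?_⟩
  · cases k with
    | zero =>
      refine (kan_iff 1 (efenceP (2 ^ 0))).2 (hornExt_one_of_top _ (⟨1, by norm_num, by norm_num⟩ :
        EFence (2 ^ 0)) ?_)
      intro x
      have h1 := x.nonneg
      have h2 := x.le_two_mul
      change x.val = 1 ∨ (x.val % 2 = 0 ∧ ((1 : ℤ) = x.val + 1 ∨ (1 : ℤ) = x.val - 1))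
      norm_num at h2
      omega
    | succ k =>
      exact (kan_iff (k + 2) (efenceP (2 ^ (k + 1)))).2
        (hornExt_efence k (2 ^ (k + 1)) Nat.one_le_two_pow le_rfl)
  · intro h
    have h1 : SSet.KanComplex ((SSet.ex.{0}.obj)^[k + 1] (nerve (Fence (2 ^ k)))) :=
      kan_of_iso (exIso (k + 1) (nerveFunctor.mapIso (opIso (2 ^ k)).symm)) h
    exact not_hornExt_fence k (2 ^ k) le_rfl ((kan_iff (k + 1) (fenceP (2 ^ k))).1 h1)

end Pool.Agent.Results.MP_bcd555_gt.FibrancyNotSelfDual
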